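import Pool.Agent.H34.FQ.Targets

/-! Row RZF of board hfq_modules. -/

set_option autoImplicit false

namespace Pool.Agent.H69.HFQ

open Finset Pool.Agent.H32.RQ Pool.Agent.H34.FQ

lemma cpt_sph (s : ℕ) : IsCompact {x : Fin s → ℝ | (∃ j, |x j| = 1) ∧ ∀ j, |x j| ≤ 1} := by
  have h1 : IsCompact (Set.pi Set.univ fun _ : Fin s => Set.Icc (-1 : ℝ) 1) :=
    isCompact_univ_pi fun _ => isCompact_Icc
  refine h1.of_isClosed_subset ?_ ?_
  · have h2 : {x : Fin s → ℝ | (∃ j, |x j| = 1) ∧ ∀ j, |x j| ≤ 1} =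
        (⋃ j, {x : Fin s → ℝ | |x j| = 1}) ∩ ⋂ j, {x : Fin s → ℝ | |x j| ≤ 1} := by
      ext x
      simp
    rw [h2]
    refine IsClosed.inter (isClosed_iUnion_of_finite fun j => ?_) (isClosed_iInter fun j => ?_)
    · exact isClosed_eq (continuous_apply j).abs continuous_const
    · exact isClosed_le (continuous_apply j).abs continuous_const
  · intro x hx j _
    exact abs_le.mp (hx.2 j)

lemma cont_mv {s : ℕ} (T : Matrix (Fin s) (Fin s) ℤ) (i : Fin s) :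
    Continuous fun x : Fin s → ℝ => mv T x i := by
  unfold mv
  fun_prop

theorem pf_RZF (hRZA : T_RZA) (hNFE : T_NFE) : T_RZF := by
  intro n F hn hdet hz
  set S : Set (Fin (n + 2) → ℝ) := {x | (∃ j, |x j| = 1) ∧ ∀ j, |x j| ≤ 1} with hS
  have hSc : IsCompact S := cpt_sph (n + 2)
  have hSS : IsCompact (S ×ˢ S) := hSc.prod hSc
  have hne : ∀ x ∈ S, x ≠ 0 := by
    rintro x ⟨⟨j, hj⟩, _⟩ h0
    rw [h0] at hj
    simp at hj
  set U : NF F × ℕ → Set ((Fin (n + 2) → ℝ) × (Fin (n + 2) → ℝ)) := fun i =>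
    {p | 1 / ((i.2 : ℝ) + 1) < |mv i.1.Ti p.1 0| ∧ 1 / ((i.2 : ℝ) + 1) < |mv i.1.Ti p.2 0|} with hU
  have hUo : ∀ i, IsOpen (U i) := by
    intro i
    refine IsOpen.inter ?_ ?_
    · exact isOpen_lt continuous_const ((cont_mv i.1.Ti 0).comp continuous_fst).abs
    · exact isOpen_lt continuous_const ((cont_mv i.1.Ti 0).comp continuous_snd).abs
  have hcov : S ×ˢ S ⊆ ⋃ i, U i := by
    rintro ⟨x, x'⟩ ⟨hx, hx'⟩
    obtain ⟨z, hz1, hz2, hz3, hz4⟩ := hRZA n F x x' hn hdet hz (hne x hx) (hne x' hx')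
    obtain ⟨N, -, hN⟩ := hNFE n F z hdet hz1 hz2
    have h1 : mv N.Ti x 0 ≠ 0 := by
      intro h0
      apply hz3
      rw [← hN x, h0, mul_zero]
    have h2 : mv N.Ti x' 0 ≠ 0 := by
      intro h0
      apply hz4
      rw [← hN x', h0, mul_zero]
    obtain ⟨m, hm⟩ := exists_nat_one_div_lt (lt_min (abs_pos.mpr h1) (abs_pos.mpr h2))
    exact Set.mem_iUnion.mpr ⟨(N, m), hm.trans_le (min_le_left _ _), hm.trans_le (min_le_right _ _)⟩
  obtain ⟨t, ht⟩ := hSS.elim_finite_subcover U hUo hcov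
  set M : ℕ := t.sup Prod.snd with hM
  refine ⟨t.card, fun i => (t.equivFin.symm i).1.1, 1 / ((M : ℝ) + 1), by positivity, ?_⟩
  intro x x' hx1 hx2 hx'1 hx'2
  have hmem : (x, x') ∈ S ×ˢ S := ⟨⟨hx1, hx2⟩, ⟨hx'1, hx'2⟩⟩
  have h3 := ht hmem
  simp only [Set.mem_iUnion] at h3
  obtain ⟨i, hit, hi1, hi2⟩ := h3
  refine ⟨t.equivFin ⟨i, hit⟩, ?_⟩
  simp only [Equiv.symm_apply_apply]
  have h4 : (i.2 : ℝ) ≤ M := by
    have : i.2 ≤ M := Finset.le_sup (f := Prod.snd) hit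
    exact_mod_cast this
  have h5 : 1 / ((M : ℝ) + 1) ≤ 1 / ((i.2 : ℝ) + 1) :=
    one_div_le_one_div_of_le (by positivity) (by linarith)
  exact ⟨h5.trans hi1.le, h5.trans hi2.le⟩

end Pool.Agent.H69.HFQ
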